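import Pool.Agent.P.MP_d565f2_an.D3D

set_option autoImplicit false

namespace Pool.Agent.Results.MP_d565f2_an.DimThree

/-- On the three-dimensional torus the vanishing order of a nonzero eigenfunction with eigenvalue
`4 π ^ 2 n` is at most `C (N + √n) ^ (1 / 2) log (n + 1) ^ 2`, where `N` is the number of lattice
points on the sphere of squared radius `n`. -/
theorem result :
    ∃ C : ℝ, 0 < C ∧ ∀ n : ℕ, 1 ≤ n → ∀ k : ℕ,
      (∃ c : (Fin 3 → ℤ) → ℂ, ∃ p : Fin 3 → ℝ,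
        (fun x : Fin 3 → ℝ =>
            ∑ᶠ ξ ∈ {ξ : Fin 3 → ℤ | ∑ i, ξ i ^ 2 = (n : ℤ)},
              c ξ * Complex.exp (2 * (Real.pi : ℂ) * Complex.I *
                ∑ i, ((ξ i : ℝ) : ℂ) * ((x i : ℝ) : ℂ))) ≠ 0 ∧
        ∀ j : ℕ, j < k →
          iteratedFDeriv ℝ j
            (fun x : Fin 3 → ℝ =>
              ∑ᶠ ξ ∈ {ξ : Fin 3 → ℤ | ∑ i, ξ i ^ 2 = (n : ℤ)},
                c ξ * Complex.exp (2 * (Real.pi : ℂ) * Complex.I *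
                  ∑ i, ((ξ i : ℝ) : ℂ) * ((x i : ℝ) : ℂ))) p = 0) →
      (k : ℝ) ≤ C * Real.sqrt
          (((Set.ncard {ξ : Fin 3 → ℤ | ∑ i, ξ i ^ 2 = (n : ℤ)} : ℕ) : ℝ) + Real.sqrt (n : ℝ)) *
        Real.log ((n : ℝ) + 1) ^ 2 := by
  obtain ⟨C, hC, h⟩ := Pool.Agent.P.MP_d565f2_an.D3.bound
  refine ⟨C, hC, fun n hn k ⟨c, p, hne, hvan⟩ => ?_⟩
  obtain ⟨K, hK, hKC⟩ := h n hn
  rw [Pool.Agent.P.MP_d565f2_an.fun_eq] at hne hvan
  have hk := Pool.Agent.P.MP_d565f2_an.order_le hK k c p hne hvan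
  rw [Pool.Agent.P.MP_d565f2_an.set_eq_sph, Set.ncard_coe_finset]
  exact le_trans (by exact_mod_cast hk) hKC

end Pool.Agent.Results.MP_d565f2_an.DimThree
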