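import Pool.Agent.P.MP_d565f2_an.LS.Main
import Pool.Agent.P.MP_d565f2_an.LS.NForm

set_option autoImplicit false

namespace Pool.Agent.Results.MP_d565f2_an.LogSharp

/-- In dimension `d ≥ 4` the vanishing order of a nonzero eigenfunction with eigenvalue
`4 π ^ 2 n` is at most `C N ^ (1 / (d - 1)) log (N + 1) ^ A`, where `N` is the number of lattice
points on the sphere of squared radius `n`. -/
theorem result :
    ∀ d : ℕ, 4 ≤ d → ∃ C : ℝ, 0 < C ∧ ∃ A : ℕ, ∀ n : ℕ, 1 ≤ n → ∀ k : ℕ,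
      (∃ c : (Fin d → ℤ) → ℂ, ∃ p : Fin d → ℝ,
        (fun x : Fin d → ℝ =>
            ∑ᶠ ξ ∈ {ξ : Fin d → ℤ | ∑ i, ξ i ^ 2 = (n : ℤ)},
              c ξ * Complex.exp (2 * (Real.pi : ℂ) * Complex.I *
                ∑ i, ((ξ i : ℝ) : ℂ) * ((x i : ℝ) : ℂ))) ≠ 0 ∧
        ∀ j : ℕ, j < k →
          iteratedFDeriv ℝ j
            (fun x : Fin d → ℝ =>
              ∑ᶠ ξ ∈ {ξ : Fin d → ℤ | ∑ i, ξ i ^ 2 = (n : ℤ)},
                c ξ * Complex.exp (2 * (Real.pi : ℂ) * Complex.I *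
                  ∑ i, ((ξ i : ℝ) : ℂ) * ((x i : ℝ) : ℂ))) p = 0) →
      (k : ℝ) ≤ C *
          ((Set.ncard {ξ : Fin d → ℤ | ∑ i, ξ i ^ 2 = (n : ℤ)} : ℕ) : ℝ) ^
            ((1 : ℝ) / ((d : ℝ) - 1)) *
        Real.log (((Set.ncard {ξ : Fin d → ℤ | ∑ i, ξ i ^ 2 = (n : ℤ)} : ℕ) : ℝ) + 1) ^ A := by
  intro d hd
  obtain ⟨ρ, rfl⟩ : ∃ ρ, d = ρ + 1 := ⟨d - 1, by omega⟩
  have hρ : 3 ≤ ρ := by omega
  obtain ⟨C, hC, A, h⟩ := Pool.Agent.P.MP_d565f2_an.LS.bound_N hρ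
    (Pool.Agent.P.MP_d565f2_an.LS.bound_of_main hρ (Pool.Agent.P.MP_d565f2_an.LS.main hρ))
  refine ⟨C, hC, A, fun n hn k ⟨c, p, hne, hvan⟩ => ?_⟩
  obtain ⟨K, hK, hKC⟩ := h n hn
  rw [Pool.Agent.P.MP_d565f2_an.fun_eq] at hne hvan
  have hk := Pool.Agent.P.MP_d565f2_an.order_le hK k c p hne hvan
  rw [Pool.Agent.P.MP_d565f2_an.set_eq_sph, Set.ncard_coe_finset, Nat.cast_add, Nat.cast_one,
    add_sub_cancel_right]
  exact le_trans (by exact_mod_cast hk) hKC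

end Pool.Agent.Results.MP_d565f2_an.LogSharp
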