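import Pool.Agent.P.MP_d565f2_an.SR.Final5
import Pool.Agent.P.MP_d565f2_an.SR.Main3

set_option autoImplicit false

namespace Pool.Agent.Results.MP_d565f2_an.SharpRange

open Pool.Agent.P.MP_d565f2_an in
/-- In dimension two and in every dimension at least five, the maximal vanishing order of a nonzero
eigenfunction with eigenvalue `4 π ^ 2 n` is of the order `N ^ (1 / (d - 1))`, where `N` is the
number of lattice points on the sphere of squared radius `n`. -/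
theorem result :
    ∀ d : ℕ, d = 2 ∨ 5 ≤ d → ∃ C : ℝ, 0 < C ∧ ∀ n : ℕ, 1 ≤ n →
      Set.ncard {ξ : Fin d → ℤ | ∑ i, ξ i ^ 2 = (n : ℤ)} ≠ 0 →
      ((∀ k : ℕ,
          (∃ c : (Fin d → ℤ) → ℂ, ∃ p : Fin d → ℝ,
            (fun x : Fin d → ℝ =>
                ∑ᶠ ξ ∈ {ξ : Fin d → ℤ | ∑ i, ξ i ^ 2 = (n : ℤ)},
                  c ξ * Complex.exp (2 * (Real.pi : ℂ) * Complex.I *
                    ∑ i, ((ξ i : ℝ) : ℂ) * ((x i : ℝ) : ℂ))) ≠ 0 ∧
            ∀ j : ℕ, j < k →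
              iteratedFDeriv ℝ j
                (fun x : Fin d → ℝ =>
                  ∑ᶠ ξ ∈ {ξ : Fin d → ℤ | ∑ i, ξ i ^ 2 = (n : ℤ)},
                    c ξ * Complex.exp (2 * (Real.pi : ℂ) * Complex.I *
                      ∑ i, ((ξ i : ℝ) : ℂ) * ((x i : ℝ) : ℂ))) p = 0) →
          (k : ℝ) ≤ C * ((Set.ncard {ξ : Fin d → ℤ | ∑ i, ξ i ^ 2 = (n : ℤ)} : ℕ) : ℝ)
              ^ ((1 : ℝ) / ((d : ℝ) - 1))) ∧
       (∃ k : ℕ,
          (∃ c : (Fin d → ℤ) → ℂ, ∃ p : Fin d → ℝ,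
            (fun x : Fin d → ℝ =>
                ∑ᶠ ξ ∈ {ξ : Fin d → ℤ | ∑ i, ξ i ^ 2 = (n : ℤ)},
                  c ξ * Complex.exp (2 * (Real.pi : ℂ) * Complex.I *
                    ∑ i, ((ξ i : ℝ) : ℂ) * ((x i : ℝ) : ℂ))) ≠ 0 ∧
            ∀ j : ℕ, j < k →
              iteratedFDeriv ℝ j
                (fun x : Fin d → ℝ =>
                  ∑ᶠ ξ ∈ {ξ : Fin d → ℤ | ∑ i, ξ i ^ 2 = (n : ℤ)},
                    c ξ * Complex.exp (2 * (Real.pi : ℂ) * Complex.I *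
                      ∑ i, ((ξ i : ℝ) : ℂ) * ((x i : ℝ) : ℂ))) p = 0) ∧
          ((Set.ncard {ξ : Fin d → ℤ | ∑ i, ξ i ^ 2 = (n : ℤ)} : ℕ) : ℝ)
              ^ ((1 : ℝ) / ((d : ℝ) - 1)) ≤ C * (k : ℝ))) := by
  intro d hd
  obtain ⟨C, hC, h⟩ := LS.upper3 (fun _ => LS.main3) d hd
  refine ⟨C + 4, by positivity, fun n hn hN => ?_⟩
  simp only [fun_eq]
  rw [set_eq_sph, Set.ncard_coe_finset] at hN ⊢
  refine ⟨fun k ⟨c, p, hne, hvan⟩ => ?_, ?_⟩
  · obtain ⟨K, hK, hKC⟩ := h n hn hN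
    have hk : (k : ℝ) ≤ K := by exact_mod_cast order_le hK k c p hne hvan
    refine hk.trans (hKC.trans (mul_le_mul_of_nonneg_right (by linarith) (by positivity)))
  · obtain ⟨k, ⟨c, hne, hvan⟩, hk⟩ := FR.lower d (by omega) n hn hN
    exact ⟨k, ⟨c, 0, hne, hvan⟩,
      hk.trans (mul_le_mul_of_nonneg_right (by linarith) (by positivity))⟩

end Pool.Agent.Results.MP_d565f2_an.SharpRange
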